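import Pool.Agent.T9h80.GMin.Homology

set_option autoImplicit false

/-!
# Simplicial complexes, homology spheres, the Dehn–Sommerville identity
-/

namespace Pool.Agent.T9h80.GMin

open Finset Polynomial

/-- A finite abstract simplicial complex whose set of vertices is all of `V`. -/
structure Cplx (V : Type*) [DecidableEq V] [Fintype V] where
  /-- the faces -/
  faces : Finset (Finset V)
  empty_mem : ∅ ∈ faces
  singleton_mem : ∀ v : V, {v} ∈ faces
  down : ∀ s ∈ faces, ∀ t, t ⊆ s → t ∈ faces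

variable {V : Type*} [DecidableEq V] [Fintype V]

/-- The link of `σ`: all sets disjoint from `σ` whose union with `σ` is a face. -/
def Cplx.link (Δ : Cplx V) (σ : Finset V) : Finset (Finset V) :=
  univ.filter fun τ => Disjoint σ τ ∧ σ ∪ τ ∈ Δ.faces

/-- `Δ` is a `ℤ/2`-homology `(d-1)`-sphere: it is pure of dimension `d - 1` (every face lies in a
face with `d` elements and no face has more), and the link of every face `σ`, the empty one
included, has the `ℤ/2`-homology of a sphere of dimension `d - 1 - |σ|`. -/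
def Cplx.IsHomologySphere (Δ : Cplx V) (d : ℕ) : Prop :=
  (∀ s ∈ Δ.faces, s.card ≤ d ∧ ∃ t ∈ Δ.faces, s ⊆ t ∧ t.card = d) ∧
    ∀ σ ∈ Δ.faces, SphereHomology (Δ.link σ) (d - σ.card)

/-- A missing face: a non-face all of whose proper subsets are faces. -/
def Cplx.IsMissing (Δ : Cplx V) (τ : Finset V) : Prop :=
  τ ∉ Δ.faces ∧ ∀ s, s ⊂ τ → s ∈ Δ.faces

/-- `h_j = ∑_{k=0}^{j} (-1)^{j-k} C(d-k, d-j) f_{k-1}`. -/
def Cplx.h (Δ : Cplx V) (d j : ℕ) : ℤ :=
  ∑ k ∈ range (j + 1), (-1) ^ (j - k) * ((d - k).choose (d - j) : ℤ) * (fNum Δ.faces k : ℤ)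

/-- `g_0 = 1` and `g_j = h_j - h_{j-1}`. -/
def Cplx.g (Δ : Cplx V) (d j : ℕ) : ℤ :=
  if j = 0 then 1 else Δ.h d j - Δ.h d (j - 1)

/-- Two complexes are isomorphic: a bijection of the vertex sets identifies the faces. -/
def Cplx.Iso {W : Type*} [DecidableEq W] [Fintype W] (Δ : Cplx V) (Γ : Cplx W) : Prop :=
  ∃ e : V ≃ W, ∀ s : Finset V, s ∈ Δ.faces ↔ s.map e.toEmbedding ∈ Γ.faces

lemma link_down (Δ : Cplx V) (σ : Finset V) : Down (Δ.link σ) := by
  intro s hs t hts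
  unfold Cplx.link at hs ⊢
  rw [mem_filter] at hs ⊢
  refine ⟨mem_univ _, hs.2.1.mono_right hts, ?_⟩
  exact Δ.down _ hs.2.2 _ (union_subset_union_right hts)

/-- The face polynomial `∑ X^{|s|}`. -/
noncomputable def facePoly (F : Finset (Finset V)) : ℤ[X] := ∑ s ∈ F, X ^ s.card

omit [Fintype V] [DecidableEq V] in
lemma coeff_facePoly (F : Finset (Finset V)) (k : ℕ) : (facePoly F).coeff k = fNum F k := by
  unfold facePoly fNum
  rw [finsetSum_coeff]
  simp only [coeff_X_pow]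
  rw [card_filter]
  push_cast
  exact Finset.sum_congr rfl fun s _ => by simp [eq_comm]

/-- The Dehn–Sommerville identity. -/
lemma dehn_sommerville (Δ : Cplx V) {d : ℕ} (hS : Δ.IsHomologySphere d) :
    (facePoly Δ.faces).comp (-1 - X) = (-1) ^ d * facePoly Δ.faces := by
  have h1 : ∀ s : Finset V, ((-1 - X : ℤ[X])) ^ s.card =
      ∑ σ ∈ s.powerset, (-1) ^ s.card * X ^ σ.card := by
    intro s
    have : (-1 - X : ℤ[X]) = (-1) * (X + 1) := by ring
    rw [this, mul_pow, ← Finset.mul_sum]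
    congr 1
    have := Finset.sum_pow_mul_eq_add_pow (X : ℤ[X]) 1 s
    rw [← this]
    simp
  unfold facePoly
  rw [Polynomial.sum_comp]
  simp only [X_pow_comp, h1]
  rw [Finset.sum_sigma' Δ.faces (fun s => s.powerset)]
  rw [Finset.mul_sum]
  -- regroup by σ
  have h2 : ∑ p ∈ Δ.faces.sigma (fun s => s.powerset), (-1 : ℤ[X]) ^ (p.1).card * X ^ (p.2).card =
      ∑ σ ∈ Δ.faces, ∑ τ ∈ Δ.link σ, (-1 : ℤ[X]) ^ (σ ∪ τ).card * X ^ σ.card := by
    rw [Finset.sum_sigma' Δ.faces (fun σ => Δ.link σ)]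
    refine Finset.sum_bij' (fun p _ => ⟨p.2, p.1 \ p.2⟩) (fun p _ => ⟨p.1 ∪ p.2, p.1⟩) ?_ ?_ ?_ ?_ ?_
    · rintro ⟨s, σ⟩ h
      simp only [mem_sigma, mem_powerset] at h ⊢
      refine ⟨Δ.down _ h.1 _ h.2, ?_⟩
      unfold Cplx.link
      rw [mem_filter]
      refine ⟨mem_univ _, disjoint_sdiff, ?_⟩
      rw [union_sdiff_of_subset h.2]
      exact h.1
    · rintro ⟨σ, τ⟩ h
      simp only [mem_sigma, mem_powerset] at h ⊢
      unfold Cplx.link at h
      rw [mem_filter] at h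
      exact ⟨h.2.2.2, subset_union_left⟩
    · rintro ⟨s, σ⟩ h
      simp only [mem_sigma, mem_powerset] at h
      simp only [Sigma.mk.injEq, heq_eq_eq, and_true]
      exact union_sdiff_of_subset h.2
    · rintro ⟨σ, τ⟩ h
      simp only [mem_sigma] at h
      unfold Cplx.link at h
      rw [mem_filter] at h
      simp only [Sigma.mk.injEq, heq_eq_eq, true_and]
      exact union_sdiff_cancel_left h.2.2.1
    · rintro ⟨s, σ⟩ h
      simp only [mem_sigma, mem_powerset] at h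
      simp only
      rw [union_sdiff_of_subset h.2]
  rw [h2]
  refine Finset.sum_congr rfl fun σ hσ => ?_
  have h3 : ∀ τ ∈ Δ.link σ, (-1 : ℤ[X]) ^ (σ ∪ τ).card * X ^ σ.card =
      ((-1) ^ σ.card * X ^ σ.card) * (C (((-1 : ℤ)) ^ τ.card)) := by
    intro τ hτ
    unfold Cplx.link at hτ
    rw [mem_filter] at hτ
    rw [card_union_of_disjoint hτ.2.1, pow_add]
    simp only [map_pow, map_neg, map_one]
    ring
  rw [Finset.sum_congr rfl h3, ← Finset.mul_sum, ← map_sum,
    SphereHomology.euler (link_down Δ σ) (hS.2 σ hσ)]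
  have hle := (hS.1 σ hσ).1
  simp only [map_pow, map_neg, map_one]
  have h4 : (-1 : ℤ[X]) ^ σ.card * (-1) ^ (d - σ.card) = (-1) ^ d := by
    rw [← pow_add]
    congr 1
    omega
  calc (-1 : ℤ[X]) ^ σ.card * X ^ σ.card * (-1) ^ (d - σ.card)
      = ((-1 : ℤ[X]) ^ σ.card * (-1) ^ (d - σ.card)) * X ^ σ.card := by ring
    _ = _ := by rw [h4]

/-- A polynomial of degree at most `d` with the Dehn–Sommerville symmetry and vanishing
coefficients up to `d / 2` vanishes. -/
lemma eq_zero_of_symm {u : ℤ[X]} {d : ℕ} (hdeg : u.natDegree ≤ d)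
    (hsym : u.comp (-1 - X) = (-1) ^ d * u) (hlow : ∀ k ≤ d / 2, u.coeff k = 0) : u = 0 := by
  have h1 : X ^ (d / 2 + 1) ∣ u := by
    rw [X_pow_dvd_iff]
    intro k hk
    exact hlow k (by omega)
  have h2 : (X + 1) ^ (d / 2 + 1) ∣ u := by
    obtain ⟨v, hv⟩ := h1
    have h3 : u = (-1) ^ d * u.comp (-1 - X) := by
      rw [hsym, ← mul_assoc, ← pow_add, ← two_mul, pow_mul]
      simp
    rw [h3, hv, mul_comp, X_pow_comp]
    have : (-1 - X : ℤ[X]) = (-1) * (X + 1) := by ring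
    rw [this, mul_pow]
    refine ⟨(-1) ^ d * ((-1) ^ (d / 2 + 1) * v.comp (-1 * (X + 1))), ?_⟩
    ring
  have hcop : IsCoprime (X ^ (d / 2 + 1) : ℤ[X]) ((X + 1) ^ (d / 2 + 1)) := by
    apply IsCoprime.pow
    exact ⟨-1, 1, by ring⟩
  have h3 := hcop.mul_dvd h1 h2
  by_contra hne
  have h4 := Polynomial.natDegree_le_of_dvd h3 hne
  rw [natDegree_mul (pow_ne_zero _ X_ne_zero) (pow_ne_zero _ (by
    have : (X + 1 : ℤ[X]) = X + C 1 := by simp
    rw [this]; exact X_add_C_ne_zero 1)), natDegree_pow, natDegree_pow] at h4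
  have h5 : (X + 1 : ℤ[X]).natDegree = 1 := by
    have : (X + 1 : ℤ[X]) = X + C 1 := by simp
    rw [this]; exact natDegree_X_add_C 1
  rw [h5, natDegree_X] at h4
  omega

end Pool.Agent.T9h80.GMin
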