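import Mathlib

set_option autoImplicit false

/-!
# Reduced simplicial homology with `ℤ/2` coefficients of a finite family of finite sets
-/

namespace Pool.Agent.T9h80.GMin

open Finset

variable {V : Type*} [DecidableEq V] [Fintype V]

/-- The chains of `F` on the members of `F` with `k` elements (that is, `(k-1)`-dimensional
chains), as functions on all finite sets that vanish elsewhere. -/
def chains (F : Finset (Finset V)) (k : ℕ) : Submodule (ZMod 2) (Finset V → ZMod 2) where
  carrier := {c | ∀ s, c s ≠ 0 → s ∈ F ∧ s.card = k}
  add_mem' := by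
    intro a b ha hb s hs
    by_cases h : a s = 0
    · apply hb s
      intro h2
      apply hs
      simp [h, h2]
    · exact ha s h
  zero_mem' := by
    intro s hs
    simp at hs
  smul_mem' := by
    intro c x hx s hs
    apply hx s
    intro h
    apply hs
    simp [h]

/-- The boundary map: the coefficient of `t` in the boundary of `c` is the sum of the coefficients
in `c` of the sets `t ∪ {v}`, over all `v` not in `t`. -/
def boundary : (Finset V → ZMod 2) →ₗ[ZMod 2] (Finset V → ZMod 2) where
  toFun c := fun t => ∑ v ∈ univ \ t, c (insert v t)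
  map_add' := by
    intro a b
    funext t
    simp [Finset.sum_add_distrib]
  map_smul' := by
    intro c x
    funext t
    simp only [Pi.smul_apply, smul_eq_mul, RingHom.id_apply, Finset.mul_sum]

/-- Cycles on sets with `k` elements. -/
def cycles (F : Finset (Finset V)) (k : ℕ) : Submodule (ZMod 2) (Finset V → ZMod 2) :=
  chains F k ⊓ LinearMap.ker boundary

/-- Boundaries on sets with `k` elements. -/
def boundaries (F : Finset (Finset V)) (k : ℕ) : Submodule (ZMod 2) (Finset V → ZMod 2) :=
  (chains F (k + 1)).map boundary

/-- `betti F k` is the dimension of the reduced homology group of `F` in dimension `k - 1` with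
coefficients in `ℤ/2`, that is, of the cycles modulo the boundaries on sets with `k` elements. -/
noncomputable def betti (F : Finset (Finset V)) (k : ℕ) : ℕ :=
  Module.finrank (ZMod 2) (cycles F k ⧸ (boundaries F k).comap (cycles F k).subtype)

lemma boundary_apply (c : Finset V → ZMod 2) (t : Finset V) :
    boundary c t = ∑ v ∈ univ \ t, c (insert v t) := rfl

lemma boundary_boundary (c : Finset V → ZMod 2) : boundary (boundary c) = 0 := by
  funext t
  simp only [boundary_apply, Pi.zero_apply]
  rw [Finset.sum_sigma']
  refine Finset.sum_involution (fun p _ => ⟨p.2, p.1⟩) ?_ ?_ ?_ ?_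
  · rintro ⟨v, w⟩ h
    simp only
    rw [Finset.insert_comm v w t]
    exact CharTwo.add_self_eq_zero _
  · rintro ⟨v, w⟩ h _ heq
    simp only [mem_sigma, mem_sdiff, mem_univ, true_and, mem_insert, not_or] at h
    simp only [Sigma.mk.injEq, heq_eq_eq] at heq
    exact h.2.1 heq.1
  · rintro ⟨v, w⟩ h
    simp only [mem_sigma, mem_sdiff, mem_univ, true_and, mem_insert, not_or] at h ⊢
    exact ⟨h.2.2, fun h' => h.2.1 h'.symm, h.1⟩
  · rintro ⟨v, w⟩ h
    rfl

/-- A family closed under taking subsets. -/
def Down (F : Finset (Finset V)) : Prop := ∀ s ∈ F, ∀ t, t ⊆ s → t ∈ F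

lemma boundary_mem_chains {F : Finset (Finset V)} (hF : Down F) {k : ℕ} {c : Finset V → ZMod 2}
    (hc : c ∈ chains F (k + 1)) : boundary c ∈ chains F k := by
  intro t ht
  rw [boundary_apply] at ht
  obtain ⟨v, hv, hne⟩ := Finset.exists_ne_zero_of_sum_ne_zero ht
  obtain ⟨h1, h2⟩ := hc _ hne
  rw [mem_sdiff] at hv
  rw [card_insert_of_notMem hv.2] at h2
  exact ⟨hF _ h1 _ (subset_insert v t), by omega⟩

lemma boundaries_le_cycles {F : Finset (Finset V)} (hF : Down F) (k : ℕ) :
    boundaries F k ≤ cycles F k := by
  rintro _ ⟨c, hc, rfl⟩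
  exact ⟨boundary_mem_chains hF hc, LinearMap.mem_ker.2 (boundary_boundary c)⟩

/-- The number of members of `F` with `k` elements. -/
def fNum (F : Finset (Finset V)) (k : ℕ) : ℕ := (F.filter fun s => s.card = k).card

lemma finrank_chains (F : Finset (Finset V)) (k : ℕ) :
    Module.finrank (ZMod 2) (chains F k) = fNum F k := by
  classical
  have e : (chains F k) ≃ₗ[ZMod 2] ({s // s ∈ F.filter fun s => s.card = k} → ZMod 2) :=
    { toFun := fun c s => c.1 s.1
      map_add' := by intro a b; funext s; rfl
      map_smul' := by intro a b; funext s; rfl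
      invFun := fun g => ⟨fun s => if h : s ∈ F.filter (fun s => s.card = k) then g ⟨s, h⟩ else 0,
        by
          intro s hs
          by_cases h : s ∈ F.filter (fun s => s.card = k)
          · exact (mem_filter.1 h)
          · simp [h] at hs⟩
      left_inv := by
        intro c
        apply Subtype.ext
        funext s
        by_cases h : s ∈ F.filter (fun s => s.card = k)
        · simp only [h, dite_true]
        · simp only [h, dite_false]
          by_contra hne
          exact h (mem_filter.2 (c.2 s (fun h0 => hne h0.symm)))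
      right_inv := by
        intro g
        funext s
        simp only [s.2, dite_true] }
  rw [e.finrank_eq, Module.finrank_fintype_fun_eq_card, Fintype.card_coe]
  rfl

lemma finrank_cycles_add (F : Finset (Finset V)) (k : ℕ) :
    Module.finrank (ZMod 2) (boundaries F k) + Module.finrank (ZMod 2) (cycles F (k + 1)) =
      fNum F (k + 1) := by
  rw [← finrank_chains]
  have h := LinearMap.finrank_range_add_finrank_ker
    ((boundary (V := V)).domRestrict (chains F (k + 1)))
  rw [← h]
  congr 1
  · rw [LinearMap.range_domRestrict]
    rfl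
  · rw [LinearMap.ker_domRestrict]
    have e := Submodule.comapSubtypeEquivOfLe
      (p := chains F (k + 1) ⊓ LinearMap.ker boundary) (q := chains F (k + 1)) inf_le_left
    have h2 : Submodule.comap (chains F (k + 1)).subtype
        (chains F (k + 1) ⊓ LinearMap.ker boundary) =
        (LinearMap.ker (boundary (V := V))).comap (chains F (k + 1)).subtype := by
      ext x
      simp
    rw [h2] at e
    exact e.symm.finrank_eq

lemma betti_add (F : Finset (Finset V)) (hF : Down F) (k : ℕ) :
    betti F k + Module.finrank (ZMod 2) (boundaries F k) =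
      Module.finrank (ZMod 2) (cycles F k) := by
  have e := Submodule.comapSubtypeEquivOfLe (boundaries_le_cycles hF k)
  rw [← e.finrank_eq]
  exact Submodule.finrank_quotient_add_finrank _

lemma finrank_cycles_zero (F : Finset (Finset V)) :
    Module.finrank (ZMod 2) (cycles F 0) = fNum F 0 := by
  rw [← finrank_chains]
  have h : cycles F 0 = chains F 0 := by
    unfold cycles
    rw [inf_eq_left]
    intro c hc
    rw [LinearMap.mem_ker]
    funext t
    rw [boundary_apply]
    refine Finset.sum_eq_zero fun v _ => ?_
    by_contra hne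
    have := (hc _ hne).2
    rw [card_eq_zero] at this
    exact (insert_ne_empty v t) this
  rw [h]

/-- The Euler–Poincaré formula. -/
lemma euler_poincare (F : Finset (Finset V)) (hF : Down F) (D : ℕ) (hD : ∀ s ∈ F, s.card ≤ D) :
    ∑ s ∈ F, (-1 : ℤ) ^ s.card = ∑ k ∈ range (D + 1), (-1 : ℤ) ^ k * betti F k := by
  have h1 : ∑ s ∈ F, (-1 : ℤ) ^ s.card = ∑ k ∈ range (D + 1), (-1 : ℤ) ^ k * fNum F k := by
    rw [← Finset.sum_fiberwise_of_maps_to (s := F) (t := range (D + 1)) (g := fun s => s.card)]
    · refine Finset.sum_congr rfl fun k _ => ?_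
      rw [Finset.sum_congr rfl (g := fun _ => (-1 : ℤ) ^ k)]
      · rw [Finset.sum_const, nsmul_eq_mul, mul_comm]
        rfl
      · intro s hs
        rw [(mem_filter.1 hs).2]
    · intro s hs
      rw [mem_range]
      have := hD s hs
      omega
  rw [h1]
  have hB : Module.finrank (ZMod 2) (boundaries F D) = 0 := by
    have h2 := finrank_cycles_add F D
    have h3 : fNum F (D + 1) = 0 := by
      unfold fNum
      rw [card_eq_zero, filter_eq_empty_iff]
      intro s hs h
      have := hD s hs
      omega
    omega
  have key : ∀ n, ∑ k ∈ range (n + 1), (-1 : ℤ) ^ k * fNum F k =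
      ∑ k ∈ range (n + 1), (-1 : ℤ) ^ k * betti F k +
        (-1) ^ n * Module.finrank (ZMod 2) (boundaries F n) := by
    intro n
    induction n with
    | zero =>
      have h2 := betti_add F hF 0
      rw [finrank_cycles_zero] at h2
      simp only [zero_add, sum_range_one, pow_zero, one_mul]
      rw [← h2]
      push_cast
      rfl
    | succ n ih =>
      rw [Finset.sum_range_succ, ih, Finset.sum_range_succ _ (n + 1), ← finrank_cycles_add,
        ← betti_add F hF (n + 1)]
      push_cast
      ring
  rw [key D, hB]
  simp

/-- The family `F` has the `ℤ/2`-homology of a sphere of dimension `m - 1`. -/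
def SphereHomology (F : Finset (Finset V)) (m : ℕ) : Prop :=
  ∀ k, betti F k = if k = m then 1 else 0

lemma SphereHomology.euler {F : Finset (Finset V)} (hF : Down F) {m : ℕ}
    (h : SphereHomology F m) : ∑ s ∈ F, (-1 : ℤ) ^ s.card = (-1) ^ m := by
  obtain ⟨D, hD⟩ : ∃ D, ∀ s ∈ F, s.card ≤ D :=
    ⟨F.sup Finset.card, fun s hs => Finset.le_sup (f := Finset.card) hs⟩
  rw [euler_poincare F hF (max D m) (fun s hs => (hD s hs).trans (le_max_left _ _))]
  rw [Finset.sum_eq_single m]
  · rw [h m]
    simp
  · intro k _ hk
    rw [h k]
    simp [hk]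
  · intro hm
    exfalso
    apply hm
    rw [mem_range]
    have := le_max_right D m
    omega

end Pool.Agent.T9h80.GMin
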