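import Pool.Agent.T9h80.GMin.Complex

set_option autoImplicit false

/-!
# The join `K(i, d-1)` of boundaries of simplices and its face polynomial
-/

namespace Pool.Agent.T9h80.GMin

open Finset Polynomial

/-- The dimension of the `a`-th simplex: `i` for the first `q` ones, `r` for the last one. -/
def blockDim (q i r : ℕ) (a : Fin (q + 1)) : ℕ := if (a : ℕ) < q then i else r

/-- The vertex set of `K(i, d-1)`: the disjoint union of `q` blocks with `i + 1` vertices and one
block with `r + 1` vertices. -/
abbrev KV (q i r : ℕ) : Type := Σ a : Fin (q + 1), Fin (blockDim q i r a + 1)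

/-- The complex `K(i, d-1)`, `d = q i + r`: the join of `q` copies of the boundary complex of the
`i`-simplex and one copy of the boundary complex of the `r`-simplex.  A set of vertices is a face
if and only if it misses at least one vertex of each block. -/
def K (q i r : ℕ) (hi : 1 ≤ i) (hr : 1 ≤ r) : Cplx (KV q i r) where
  faces := univ.filter fun s => ∀ a, ∃ b, (⟨a, b⟩ : KV q i r) ∉ s
  empty_mem := by
    rw [mem_filter]
    exact ⟨mem_univ _, fun a => ⟨0, notMem_empty _⟩⟩
  singleton_mem := by
    rintro ⟨a, b⟩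
    rw [mem_filter]
    refine ⟨mem_univ _, fun a' => ?_⟩
    by_cases h : a' = a
    · subst h
      have h1 : 1 ≤ blockDim q i r a' := by
        unfold blockDim
        split_ifs <;> assumption
      obtain ⟨b', hb'⟩ : ∃ b' : Fin (blockDim q i r a' + 1), b' ≠ b := by
        have : Nontrivial (Fin (blockDim q i r a' + 1)) := by
          rw [Fin.nontrivial_iff_two_le]
          omega
        exact exists_ne b
      refine ⟨b', ?_⟩
      rw [mem_singleton]
      intro h2
      simp only [Sigma.mk.injEq, heq_eq_eq, true_and] at h2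
      exact hb' h2
    · refine ⟨0, ?_⟩
      rw [mem_singleton]
      intro h2
      exact h (congrArg Sigma.fst h2)
  down := by
    intro s hs t hts
    rw [mem_filter] at hs ⊢
    refine ⟨mem_univ _, fun a => ?_⟩
    obtain ⟨b, hb⟩ := hs.2 a
    exact ⟨b, fun h => hb (hts h)⟩

section poly

variable {ι : Type*} [Fintype ι] [DecidableEq ι] {β : ι → Type*} [∀ a, Fintype (β a)]
  [∀ a, DecidableEq (β a)]

lemma facePoly_blocks :
    facePoly (univ.filter fun s : Finset (Σ a, β a) => ∀ a, ∃ b, (⟨a, b⟩ : Σ a, β a) ∉ s) =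
      ∏ a, ∑ t ∈ univ.filter (fun t : Finset (β a) => t ≠ univ), (X : ℤ[X]) ^ t.card := by
  rw [Finset.prod_univ_sum]
  unfold facePoly
  refine Finset.sum_bij' (fun s _ => fun a => univ.filter fun b => (⟨a, b⟩ : Σ a, β a) ∈ s)
    (fun f _ => univ.sigma f) ?_ ?_ ?_ ?_ ?_
  · intro s hs
    rw [mem_filter] at hs
    rw [Fintype.mem_piFinset]
    intro a
    rw [mem_filter]
    refine ⟨mem_univ _, fun h => ?_⟩
    obtain ⟨b, hb⟩ := hs.2 a
    have : b ∈ univ.filter fun b => (⟨a, b⟩ : Σ a, β a) ∈ s := by
      rw [h]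
      exact mem_univ _
    exact hb (mem_filter.1 this).2
  · intro f hf
    rw [Fintype.mem_piFinset] at hf
    rw [mem_filter]
    refine ⟨mem_univ _, fun a => ?_⟩
    by_contra hcon
    push Not at hcon
    refine (mem_filter.1 (hf a)).2 (eq_univ_of_forall fun b => ?_)
    have := hcon b
    rw [mem_sigma] at this
    exact this.2
  · intro s hs
    ext ⟨a, b⟩
    simp
  · intro f hf
    funext a
    ext b
    simp
  · intro s hs
    rw [Finset.prod_pow_eq_pow_sum]
    congr 1
    rw [← Finset.card_sigma]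
    congr 1
    ext ⟨a, b⟩
    simp

omit [Fintype ι] [DecidableEq ι] in
lemma sum_proper (a : ι) :
    ∑ t ∈ univ.filter (fun t : Finset (β a) => t ≠ univ), (X : ℤ[X]) ^ t.card =
      (X + 1) ^ Fintype.card (β a) - X ^ Fintype.card (β a) := by
  have h := Finset.sum_pow_mul_eq_add_pow (X : ℤ[X]) 1 (univ : Finset (β a))
  simp only [one_pow, mul_one, powerset_univ, card_univ] at h
  rw [← h, ← Finset.sum_filter_add_sum_filter_not univ (fun t : Finset (β a) => t ≠ univ)]
  have h2 : univ.filter (fun t : Finset (β a) => ¬ t ≠ univ) = {univ} := by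
    ext t
    simp
  rw [h2, sum_singleton, card_univ]
  ring

end poly

lemma facePoly_K (q i r : ℕ) (hi : 1 ≤ i) (hr : 1 ≤ r) :
    facePoly (K q i r hi hr).faces =
      ∏ a : Fin (q + 1), ((X + 1) ^ (blockDim q i r a + 1) - X ^ (blockDim q i r a + 1)) := by
  have h := facePoly_blocks (ι := Fin (q + 1)) (β := fun a => Fin (blockDim q i r a + 1))
  refine Eq.trans ?_ (h.trans ?_)
  · congr 1
    ext s
    simp [K]
  · refine Finset.prod_congr rfl fun a _ => ?_
    rw [sum_proper (β := fun a => Fin (blockDim q i r a + 1)) a]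
    simp

lemma sum_blockDim (q i r : ℕ) : ∑ a : Fin (q + 1), blockDim q i r a = q * i + r := by
  rw [Fin.sum_univ_castSucc]
  have h1 : ∀ a : Fin q, blockDim q i r a.castSucc = i := by
    intro a
    unfold blockDim
    simp
  have h2 : blockDim q i r (Fin.last q) = r := by
    unfold blockDim
    simp
  rw [h2, Finset.sum_congr rfl (fun a _ => h1 a)]
  simp

lemma K_symm (q i r : ℕ) (hi : 1 ≤ i) (hr : 1 ≤ r) :
    (facePoly (K q i r hi hr).faces).comp (-1 - X) =
      (-1) ^ (q * i + r) * facePoly (K q i r hi hr).faces := by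
  rw [facePoly_K, Polynomial.prod_comp, ← sum_blockDim q i r, ← Finset.prod_pow_eq_pow_sum,
    ← Finset.prod_mul_distrib]
  refine Finset.prod_congr rfl fun a _ => ?_
  simp only [sub_comp, pow_comp, add_comp, X_comp, one_comp]
  have h1 : (-1 - X + 1 : ℤ[X]) = (-1) * X := by ring
  have h2 : (-1 - X : ℤ[X]) = (-1) * (X + 1) := by ring
  rw [h1, h2, mul_pow, mul_pow, pow_succ (-1 : ℤ[X])]
  ring

lemma K_card_le (q i r : ℕ) (hi : 1 ≤ i) (hr : 1 ≤ r) (s : Finset (KV q i r))
    (hs : s ∈ (K q i r hi hr).faces) : s.card ≤ q * i + r := by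
  unfold K at hs
  simp only [mem_filter] at hs
  rw [← sum_blockDim q i r]
  have h1 : s = univ.sigma (fun a => univ.filter fun b => (⟨a, b⟩ : KV q i r) ∈ s) := by
    ext ⟨a, b⟩
    simp
  rw [h1, Finset.card_sigma]
  refine Finset.sum_le_sum fun a _ => ?_
  obtain ⟨b, hb⟩ := hs.2 a
  have h2 : (univ.filter fun b => (⟨a, b⟩ : KV q i r) ∈ s) ⊂ univ := by
    rw [Finset.ssubset_univ_iff]
    intro h
    have : b ∈ univ.filter fun b => (⟨a, b⟩ : KV q i r) ∈ s := by
      rw [h]
      exact mem_univ _
    exact hb (mem_filter.1 this).2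
  have h3 := Finset.card_lt_card h2
  rw [card_univ, Fintype.card_fin] at h3
  omega

lemma fNum_zero {W : Type*} [DecidableEq W] [Fintype W] (Γ : Cplx W) : fNum Γ.faces 0 = 1 := by
  unfold fNum
  rw [card_eq_one]
  refine ⟨∅, ?_⟩
  ext s
  rw [mem_filter, card_eq_zero, mem_singleton]
  constructor
  · exact fun h => h.2
  · rintro rfl
    exact ⟨Γ.empty_mem, rfl⟩

/-- Equal `g`-numbers force equal face numbers. -/
lemma fNum_eq_of_g_eq {V : Type*} [DecidableEq V] [Fintype V] (Δ : Cplx V) {d q i r : ℕ}
    (hi : 1 ≤ i) (hr : 1 ≤ r) (hd : d = q * i + r) (hS : Δ.IsHomologySphere d)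
    (hg : ∀ j, j ≤ d / 2 → Δ.g d j = (K q i r hi hr).g d j) (k : ℕ) :
    fNum Δ.faces k = fNum (K q i r hi hr).faces k := by
  have hh0 : Δ.h d 0 = (K q i r hi hr).h d 0 := by
    unfold Cplx.h
    simp [fNum_zero]
  have hh : ∀ j, j ≤ d / 2 → Δ.h d j = (K q i r hi hr).h d j := by
    intro j
    induction j with
    | zero => intro _; exact hh0
    | succ j ih =>
      intro hj
      have h1 := hg (j + 1) hj
      have h2 := ih (by omega)
      unfold Cplx.g at h1
      simp only [Nat.succ_ne_zero, if_false, Nat.add_sub_cancel] at h1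
      omega
  have hf : ∀ j, j ≤ d / 2 → fNum Δ.faces j = fNum (K q i r hi hr).faces j := by
    intro j
    induction j using Nat.strong_induction_on with
    | _ j ih =>
      intro hj
      have h1 := hh j hj
      unfold Cplx.h at h1
      rw [Finset.sum_range_succ, Finset.sum_range_succ _ j] at h1
      have h2 : ∑ k ∈ range j, (-1 : ℤ) ^ (j - k) * ((d - k).choose (d - j) : ℤ) *
          (fNum Δ.faces k : ℤ) = ∑ k ∈ range j, (-1 : ℤ) ^ (j - k) * ((d - k).choose (d - j) : ℤ) *
          (fNum (K q i r hi hr).faces k : ℤ) := by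
        refine Finset.sum_congr rfl fun k hk => ?_
        rw [mem_range] at hk
        rw [ih k hk (by omega)]
      rw [h2] at h1
      have h3 := add_left_cancel h1
      simp only [Nat.sub_self, pow_zero, Nat.choose_self, Nat.cast_one, one_mul] at h3
      exact_mod_cast h3
  have hzero : facePoly Δ.faces - facePoly (K q i r hi hr).faces = 0 := by
    apply eq_zero_of_symm (d := d)
    · refine (natDegree_sub_le _ _).trans (max_le ?_ ?_)
      · refine natDegree_sum_le_of_forall_le _ _ fun s hs => ?_
        rw [natDegree_X_pow]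
        exact (hS.1 s hs).1
      · refine natDegree_sum_le_of_forall_le _ _ fun s hs => ?_
        rw [natDegree_X_pow, hd]
        exact K_card_le q i r hi hr s hs
    · rw [sub_comp, dehn_sommerville Δ hS, K_symm, ← hd]
      ring
    · intro k hk
      rw [coeff_sub, coeff_facePoly, coeff_facePoly, hf k hk, sub_self]
  have h1 := congrArg (fun p => p.coeff k) hzero
  simp only [coeff_sub, coeff_facePoly, coeff_zero] at h1
  omega

end Pool.Agent.T9h80.GMin
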