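import Pool.Agent.T9h80.GMin.KDef

set_option autoImplicit false

/-!
# A complex with the face numbers of `K(i, d-1)` and small missing faces is `K(i, d-1)`
-/

namespace Pool.Agent.T9h80.GMin

open Finset

variable {V : Type*} [DecidableEq V] [Fintype V]

/-- Sets with `k` elements that are not faces. -/
def nonfaces (Δ : Cplx V) (k : ℕ) : Finset (Finset V) :=
  (powersetCard k univ).filter fun s => s ∉ Δ.faces

lemma mem_nonfaces {Δ : Cplx V} {k : ℕ} {s : Finset V} :
    s ∈ nonfaces Δ k ↔ s.card = k ∧ s ∉ Δ.faces := by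
  unfold nonfaces
  rw [mem_filter, mem_powersetCard]
  simp

lemma card_nonfaces (Δ : Cplx V) (k : ℕ) :
    fNum Δ.faces k + (nonfaces Δ k).card = (Fintype.card V).choose k := by
  have h := Finset.card_filter_add_card_filter_not (s := powersetCard k (univ : Finset V))
    (fun s => s ∈ Δ.faces)
  rw [card_powersetCard, card_univ] at h
  rw [← h]
  congr 1
  unfold fNum
  congr 1
  ext s
  rw [mem_filter, mem_filter, mem_powersetCard]
  constructor
  · exact fun h => ⟨⟨subset_univ _, h.2⟩, h.1⟩
  · exact fun h => ⟨h.2, h.1.2⟩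

lemma exists_missing (Δ : Cplx V) (s : Finset V) (hs : s ∉ Δ.faces) :
    ∃ τ, τ ⊆ s ∧ Δ.IsMissing τ := by
  induction s using Finset.strongInduction with
  | H s ih =>
    by_cases h : ∀ t, t ⊂ s → t ∈ Δ.faces
    · exact ⟨s, Subset.refl s, hs, h⟩
    · push Not at h
      obtain ⟨t, hts, ht⟩ := h
      obtain ⟨τ, h1, h2⟩ := ih t hts ht
      exact ⟨τ, h1.trans hts.subset, h2⟩

lemma link_empty (Δ : Cplx V) : Δ.link ∅ = Δ.faces := by
  ext s
  unfold Cplx.link
  simp

/-- A homology sphere is not a cone: each vertex lies in a missing face. -/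
lemma exists_missing_mem (Δ : Cplx V) {d : ℕ} (hS : Δ.IsHomologySphere d) (v : V) :
    ∃ τ, v ∈ τ ∧ Δ.IsMissing τ := by
  by_contra hcon
  push Not at hcon
  have hcone : ∀ s ∈ Δ.faces, insert v s ∈ Δ.faces := by
    intro s hs
    by_contra hn
    obtain ⟨τ, h1, h2⟩ := exists_missing Δ _ hn
    have hv : v ∉ τ := fun h => hcon τ h h2
    exact h2.1 (Δ.down s hs τ ((subset_insert_iff_of_notMem hv).1 h1))
  have h1 := SphereHomology.euler (link_down Δ ∅) (hS.2 ∅ Δ.empty_mem)
  rw [link_empty] at h1
  have h2 : ∑ s ∈ Δ.faces, (-1 : ℤ) ^ s.card = 0 := by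
    refine Finset.sum_involution (fun s _ => if v ∈ s then s.erase v else insert v s) ?_ ?_ ?_ ?_
    · intro s hs
      by_cases h : v ∈ s
      · simp only [h, if_true]
        have hc := card_erase_add_one h
        rw [← hc, pow_succ]
        ring
      · simp only [h, if_false]
        rw [card_insert_of_notMem h, pow_succ]
        ring
    · intro s hs _
      by_cases h : v ∈ s
      · simp only [h, if_true]
        intro h2
        have := erase_ssubset h
        rw [h2] at this
        exact (ssubset_irrefl _) this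
      · simp only [h, if_false]
        intro h2
        apply h
        rw [← h2]
        exact mem_insert_self v s
    · intro s hs
      by_cases h : v ∈ s
      · simp only [h, if_true]
        exact Δ.down s hs _ (erase_subset v s)
      · simp only [h, if_false]
        exact hcone s hs
    · intro s hs
      by_cases h : v ∈ s
      · simp only [h, if_true, notMem_erase, if_false]
        exact insert_erase h
      · simp only [h, if_false, mem_insert_self, if_true]
        exact erase_insert h
  rw [h2] at h1
  exact (pow_ne_zero _ (by norm_num : (-1 : ℤ) ≠ 0)) h1.symm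

lemma card_supersets (T : Finset V) {k : ℕ} (hk : T.card ≤ k) :
    ((powersetCard k univ).filter fun s => T ⊆ s).card =
      (Fintype.card V - T.card).choose (k - T.card) := by
  have h1 : (powersetCard k univ).filter (fun s => T ⊆ s) =
      (powersetCard (k - T.card) (univ \ T)).image (fun s => T ∪ s) := by
    ext s
    rw [mem_filter, mem_powersetCard, mem_image]
    constructor
    · rintro ⟨⟨-, h1⟩, h2⟩
      refine ⟨s \ T, ?_, union_sdiff_of_subset h2⟩
      rw [mem_powersetCard, card_sdiff_of_subset h2, h1]
      exact ⟨sdiff_subset_sdiff (subset_univ s) (Subset.refl T), rfl⟩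
    · rintro ⟨t, ht, rfl⟩
      rw [mem_powersetCard] at ht
      have hd : Disjoint T t := (disjoint_sdiff (s := T) (t := univ)).mono_right ht.1
      refine ⟨⟨subset_univ _, ?_⟩, subset_union_left⟩
      rw [card_union_of_disjoint hd, ht.2]
      omega
  rw [h1, card_image_of_injOn, card_powersetCard, card_sdiff_of_subset (subset_univ T), card_univ]
  intro a ha b hb hab
  rw [mem_coe, mem_powersetCard] at ha hb
  have hda : Disjoint T a := (disjoint_sdiff (s := T) (t := univ)).mono_right ha.1
  have hdb : Disjoint T b := (disjoint_sdiff (s := T) (t := univ)).mono_right hb.1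
  simp only at hab
  rw [← union_sdiff_cancel_left hda, hab, union_sdiff_cancel_left hdb]

lemma fNum_one (Δ : Cplx V) : fNum Δ.faces 1 = Fintype.card V := by
  have h := card_nonfaces Δ 1
  rw [Nat.choose_one_right] at h
  have h2 : nonfaces Δ 1 = ∅ := by
    rw [eq_empty_iff_forall_notMem]
    intro s hs
    rw [mem_nonfaces, card_eq_one] at hs
    obtain ⟨⟨v, rfl⟩, h3⟩ := hs
    exact h3 (Δ.singleton_mem v)
  rw [h2, card_empty] at h
  omega

/-! ### The blocks of `K` -/

/-- The block `a`. -/
def block (q i r : ℕ) (a : Fin (q + 1)) : Finset (KV q i r) := univ.filter fun p => p.1 = a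

lemma card_block (q i r : ℕ) (a : Fin (q + 1)) : (block q i r a).card = blockDim q i r a + 1 := by
  have h : block q i r a = (univ : Finset (Fin (blockDim q i r a + 1))).map
      (Function.Embedding.sigmaMk a) := by
    ext ⟨a', b'⟩
    unfold block
    simp only [mem_filter, mem_univ, true_and, mem_map, Function.Embedding.sigmaMk_apply,
      Sigma.mk.injEq]
    constructor
    · rintro rfl
      exact ⟨b', rfl, HEq.rfl⟩
    · rintro ⟨x, rfl, _⟩
      rfl
  rw [h, card_map, card_univ, Fintype.card_fin]

lemma notMem_K {q i r : ℕ} {hi : 1 ≤ i} {hr : 1 ≤ r} {s : Finset (KV q i r)} :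
    s ∉ (K q i r hi hr).faces ↔ ∃ a, block q i r a ⊆ s := by
  unfold K
  simp only [mem_filter, mem_univ, true_and, not_forall, not_exists, not_not]
  refine exists_congr fun a => ?_
  constructor
  · rintro h ⟨a', b'⟩ h2
    unfold block at h2
    rw [mem_filter] at h2
    have h3 : a' = a := h2.2
    subst h3
    exact h b'
  · intro h b
    apply h
    unfold block
    rw [mem_filter]
    exact ⟨mem_univ _, rfl⟩

lemma block_injective (q i r : ℕ) : Function.Injective (block q i r) := by
  intro a b hab
  have h : (⟨a, 0⟩ : KV q i r) ∈ block q i r b := by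
    rw [← hab]
    unfold block
    rw [mem_filter]
    exact ⟨mem_univ _, rfl⟩
  unfold block at h
  exact (mem_filter.1 h).2

lemma blockDim_last (q i r : ℕ) : blockDim q i r (Fin.last q) = r := by
  unfold blockDim
  simp

lemma blockDim_castSucc (q i r : ℕ) (a : Fin q) : blockDim q i r a.castSucc = i := by
  unfold blockDim
  simp

lemma blockDim_of_ne {q i r : ℕ} {a : Fin (q + 1)} (ha : a ≠ Fin.last q) : blockDim q i r a = i := by
  obtain ⟨b, rfl⟩ := Fin.exists_castSucc_eq.2 ha
  exact blockDim_castSucc q i r b

/-- The missing faces of `Δ` are among `q + 1` sets of the right sizes. -/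
lemma exists_family {q i r : ℕ} (hi : 1 ≤ i) (hr : 1 ≤ r) (hri : r ≤ i) (Δ : Cplx V)
    (hm : ∀ τ, Δ.IsMissing τ → τ.card ≤ i + 1)
    (hf : ∀ k, fNum Δ.faces k = fNum (K q i r hi hr).faces k) :
    ∃ μ : Fin (q + 1) → Finset V, (∀ a, (μ a).card = blockDim q i r a + 1) ∧
      (∀ a, μ a ∉ Δ.faces) ∧ ∀ τ, Δ.IsMissing τ → ∃ a, μ a = τ := by
  have hcard : Fintype.card V = Fintype.card (KV q i r) := by
    rw [← fNum_one Δ, ← fNum_one (K q i r hi hr), hf]
  have hN : ∀ k, (nonfaces Δ k).card = (nonfaces (K q i r hi hr) k).card := by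
    intro k
    have h1 := card_nonfaces Δ k
    have h2 := card_nonfaces (K q i r hi hr) k
    rw [hcard] at h1
    rw [hf k] at h1
    omega
  have hge : ∀ a, r ≤ blockDim q i r a := by
    intro a
    unfold blockDim
    split_ifs
    · exact hri
    · exact le_rfl
  -- no small nonfaces
  have hsmall : ∀ s : Finset V, s ∉ Δ.faces → r + 1 ≤ s.card := by
    intro s hs
    by_contra hlt
    have h1 : s ∈ nonfaces Δ s.card := mem_nonfaces.2 ⟨rfl, hs⟩
    have h2 : 0 < (nonfaces (K q i r hi hr) s.card).card := by
      rw [← hN]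
      exact card_pos.2 ⟨s, h1⟩
    obtain ⟨t, ht⟩ := card_pos.1 h2
    rw [mem_nonfaces, notMem_K] at ht
    obtain ⟨h3, a, ha⟩ := ht
    have h4 := card_le_card ha
    rw [card_block] at h4
    have := hge a
    omega
  rcases Nat.lt_or_ge r i with hlt | hge'
  · -- the case r < i
    have h1 : nonfaces (K q i r hi hr) (r + 1) = {block q i r (Fin.last q)} := by
      ext s
      rw [mem_nonfaces, notMem_K, mem_singleton]
      constructor
      · rintro ⟨hs, a, ha⟩
        have h4 := card_le_card ha
        rw [card_block, hs] at h4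
        have h5 : a = Fin.last q := by
          by_contra hne
          rw [blockDim_of_ne hne] at h4
          omega
        subst h5
        refine (eq_of_subset_of_card_le ha ?_).symm
        rw [card_block, blockDim_last, hs]
      · rintro rfl
        exact ⟨by rw [card_block, blockDim_last], Fin.last q, Subset.refl _⟩
    have h2 : (nonfaces Δ (r + 1)).card = 1 := by rw [hN, h1, card_singleton]
    obtain ⟨τ, hτ⟩ := card_eq_one.1 h2
    have hτ1 : τ ∈ nonfaces Δ (r + 1) := by rw [hτ]; exact mem_singleton_self τ
    rw [mem_nonfaces] at hτ1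
    -- supersets
    have hsup : ∀ k, r + 1 ≤ k → ((powersetCard k univ).filter fun s => τ ⊆ s).card =
        ((powersetCard k univ).filter fun s => block q i r (Fin.last q) ⊆ s).card := by
      intro k hk
      rw [card_supersets τ (by rw [hτ1.1]; exact hk),
        card_supersets _ (by rw [card_block, blockDim_last]; exact hk), hcard, hτ1.1, card_block,
        blockDim_last]
    have hsub : ∀ k, ((powersetCard k univ).filter fun s => τ ⊆ s) ⊆ nonfaces Δ k := by
      intro k s hs
      rw [mem_filter, mem_powersetCard] at hs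
      rw [mem_nonfaces]
      exact ⟨hs.1.2, fun h => hτ1.2 (Δ.down s h τ hs.2)⟩
    have hmid : ∀ k, r + 1 ≤ k → k ≤ i → ∀ s ∈ nonfaces Δ k, τ ⊆ s := by
      intro k hk1 hk2 s hs
      have h3 : nonfaces (K q i r hi hr) k =
          (powersetCard k univ).filter fun s => block q i r (Fin.last q) ⊆ s := by
        ext t
        rw [mem_nonfaces, notMem_K, mem_filter, mem_powersetCard]
        constructor
        · rintro ⟨ht, a, ha⟩
          have h4 := card_le_card ha
          rw [card_block, ht] at h4
          have h5 : a = Fin.last q := by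
            by_contra hne
            rw [blockDim_of_ne hne] at h4
            omega
          subst h5
          exact ⟨⟨subset_univ _, ht⟩, ha⟩
        · rintro ⟨⟨-, ht⟩, ha⟩
          exact ⟨ht, Fin.last q, ha⟩
      have h4 : (powersetCard k univ).filter (fun s => τ ⊆ s) = nonfaces Δ k := by
        apply eq_of_subset_of_card_le (hsub k)
        rw [hsup k hk1, ← h3, hN]
      rw [← h4] at hs
      exact (mem_filter.1 hs).2
    -- size i + 1
    have htop : ((nonfaces Δ (i + 1)).filter fun s => ¬ τ ⊆ s).card = q := by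
      have h3 := Finset.card_filter_add_card_filter_not (s := nonfaces Δ (i + 1))
        (fun s => τ ⊆ s)
      have h4 : (nonfaces Δ (i + 1)).filter (fun s => τ ⊆ s) =
          (powersetCard (i + 1) univ).filter fun s => τ ⊆ s := by
        ext s
        constructor
        · intro hs
          rw [mem_filter, mem_nonfaces] at hs
          rw [mem_filter, mem_powersetCard]
          exact ⟨⟨subset_univ _, hs.1.1⟩, hs.2⟩
        · intro hs
          rw [mem_filter]
          exact ⟨hsub _ hs, (mem_filter.1 hs).2⟩
      have h5 := Finset.card_filter_add_card_filter_not (s := nonfaces (K q i r hi hr) (i + 1))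
        (fun s => block q i r (Fin.last q) ⊆ s)
      have h6 : (nonfaces (K q i r hi hr) (i + 1)).filter
          (fun s => block q i r (Fin.last q) ⊆ s) =
          (powersetCard (i + 1) univ).filter fun s => block q i r (Fin.last q) ⊆ s := by
        ext s
        rw [mem_filter, mem_filter, mem_nonfaces, notMem_K, mem_powersetCard]
        constructor
        · rintro ⟨⟨h7, _⟩, h8⟩
          exact ⟨⟨subset_univ _, h7⟩, h8⟩
        · rintro ⟨⟨_, h7⟩, h8⟩
          exact ⟨⟨h7, Fin.last q, h8⟩, h8⟩
      have h7 : (nonfaces (K q i r hi hr) (i + 1)).filter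
          (fun s => ¬ block q i r (Fin.last q) ⊆ s) =
          (univ : Finset (Fin q)).image (fun a => block q i r a.castSucc) := by
        ext s
        rw [mem_filter, mem_nonfaces, notMem_K, mem_image]
        constructor
        · rintro ⟨⟨hs, a, ha⟩, hn⟩
          have h8 : a ≠ Fin.last q := by
            rintro rfl
            exact hn ha
          obtain ⟨b, rfl⟩ := Fin.exists_castSucc_eq.2 h8
          refine ⟨b, mem_univ _, eq_of_subset_of_card_le ha ?_⟩
          rw [card_block, blockDim_castSucc, hs]
        · rintro ⟨a, -, rfl⟩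
          refine ⟨⟨by rw [card_block, blockDim_castSucc], a.castSucc, Subset.refl _⟩, ?_⟩
          intro hcon
          have h8 : (⟨Fin.last q, 0⟩ : KV q i r) ∈ block q i r a.castSucc := by
            apply hcon
            unfold block
            rw [mem_filter]
            exact ⟨mem_univ _, rfl⟩
          unfold block at h8
          exact (Fin.castSucc_lt_last a).ne' (mem_filter.1 h8).2
      have h8 : ((univ : Finset (Fin q)).image (fun a => block q i r a.castSucc)).card = q := by
        have h9 : Function.Injective (fun a : Fin q => block q i r a.castSucc) :=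
          (block_injective q i r).comp (Fin.castSucc_injective q)
        rw [card_image_of_injective _ h9, card_univ, Fintype.card_fin]
      rw [h4, hsup _ (by omega), hN] at h3
      rw [h6, h7, h8] at h5
      omega
    -- enumerate
    have e := Fintype.equivFinOfCardEq (α := {s // s ∈ (nonfaces Δ (i + 1)).filter
      fun s => ¬ τ ⊆ s}) (n := q) (by rw [Fintype.card_coe]; exact htop)
    obtain ⟨μ, hμl, hμs⟩ : ∃ μ : Fin (q + 1) → Finset V, μ (Fin.last q) = τ ∧
        ∀ b : Fin q, μ b.castSucc = (e.symm b).1 := by
      refine ⟨Fin.snoc (α := fun _ => Finset V) (fun b => (e.symm b).1) τ, ?_, fun b => ?_⟩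
      · rw [Fin.snoc_last]
      · rw [Fin.snoc_castSucc]
    refine ⟨μ, ?_, ?_, ?_⟩
    · intro a
      refine Fin.lastCases ?_ (fun b => ?_) a
      · rw [hμl, blockDim_last]
        exact hτ1.1
      · rw [hμs, blockDim_castSucc]
        exact (mem_nonfaces.1 (mem_filter.1 (e.symm b).2).1).1
    · intro a
      refine Fin.lastCases ?_ (fun b => ?_) a
      · rw [hμl]
        exact hτ1.2
      · rw [hμs]
        exact (mem_nonfaces.1 (mem_filter.1 (e.symm b).2).1).2
    · intro σ hσ
      by_cases hστ : σ = τ
      · exact ⟨Fin.last q, by rw [hμl, hστ]⟩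
      · have hnsub : ¬ τ ⊆ σ := by
          intro h
          exact hτ1.2 (hσ.2 τ (Finset.ssubset_iff_subset_ne.2 ⟨h, fun h' => hστ h'.symm⟩))
        have h3 : σ.card = i + 1 := by
          have h4 := hsmall σ hσ.1
          have h5 := hm σ hσ
          by_contra hne
          exact hnsub (hmid σ.card h4 (by omega) σ (mem_nonfaces.2 ⟨rfl, hσ.1⟩))
        have h4 : σ ∈ (nonfaces Δ (i + 1)).filter fun s => ¬ τ ⊆ s :=
          mem_filter.2 ⟨mem_nonfaces.2 ⟨h3, hσ.1⟩, hnsub⟩
        refine ⟨(e ⟨σ, h4⟩).castSucc, ?_⟩
        rw [hμs, Equiv.symm_apply_apply]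
  · -- the case r = i
    have hri' : r = i := le_antisymm hri hge'
    have hdim : ∀ a, blockDim q i r a = i := by
      intro a
      unfold blockDim
      split_ifs
      · rfl
      · exact hri'
    have h1 : nonfaces (K q i r hi hr) (i + 1) = univ.image (block q i r) := by
      ext s
      rw [mem_nonfaces, notMem_K, mem_image]
      constructor
      · rintro ⟨hs, a, ha⟩
        refine ⟨a, mem_univ _, eq_of_subset_of_card_le ha ?_⟩
        rw [card_block, hdim, hs]
      · rintro ⟨a, -, rfl⟩
        exact ⟨by rw [card_block, hdim], a, Subset.refl _⟩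
    have h2 : (nonfaces Δ (i + 1)).card = q + 1 := by
      rw [hN, h1, card_image_of_injective _ (block_injective q i r), card_univ, Fintype.card_fin]
    have e := Fintype.equivFinOfCardEq (α := {s // s ∈ nonfaces Δ (i + 1)}) (n := q + 1)
      (by rw [Fintype.card_coe]; exact h2)
    refine ⟨fun a => (e.symm a).1, ?_, ?_, ?_⟩
    · intro a
      rw [hdim]
      exact (mem_nonfaces.1 (e.symm a).2).1
    · intro a
      exact (mem_nonfaces.1 (e.symm a).2).2
    · intro τ hτ
      have h3 : τ ∈ nonfaces Δ (i + 1) := by
        rw [mem_nonfaces]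
        refine ⟨?_, hτ.1⟩
        have h4 := hsmall τ hτ.1
        have h5 := hm τ hτ
        omega
      refine ⟨e ⟨τ, h3⟩, ?_⟩
      simp only [Equiv.symm_apply_apply]

/-- A homology sphere with the face numbers of `K(i, d-1)` and missing faces of dimension at most
`i` is isomorphic to `K(i, d-1)`. -/
theorem iso_of_fNum_eq {q i r d : ℕ} (hi : 1 ≤ i) (hr : 1 ≤ r) (hri : r ≤ i) (Δ : Cplx V)
    (hS : Δ.IsHomologySphere d) (hm : ∀ τ, Δ.IsMissing τ → τ.card ≤ i + 1)
    (hf : ∀ k, fNum Δ.faces k = fNum (K q i r hi hr).faces k) : Δ.Iso (K q i r hi hr) := by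
  obtain ⟨μ, hμ1, hμ2, hμ3⟩ := exists_family hi hr hri Δ hm hf
  have hcard : Fintype.card V = Fintype.card (KV q i r) := by
    rw [← fNum_one Δ, ← fNum_one (K q i r hi hr), hf]
  let ε : ∀ a, Fin (blockDim q i r a + 1) ≃ {v // v ∈ μ a} := fun a =>
    (Fintype.equivFinOfCardEq (by rw [Fintype.card_coe]; exact hμ1 a)).symm
  let φ : KV q i r → V := fun p => (ε p.1 p.2).1
  have hsurj : Function.Surjective φ := by
    intro v
    obtain ⟨τ, hv, hτ⟩ := exists_missing_mem Δ hS v
    obtain ⟨a, rfl⟩ := hμ3 τ hτ
    refine ⟨⟨a, (ε a).symm ⟨v, hv⟩⟩, ?_⟩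
    show (ε a ((ε a).symm ⟨v, hv⟩)).1 = v
    rw [Equiv.apply_symm_apply]
  have hbij : Function.Bijective φ :=
    (Fintype.bijective_iff_surjective_and_card φ).2 ⟨hsurj, hcard.symm⟩
  let e := Equiv.ofBijective φ hbij
  have hsub : ∀ (a : Fin (q + 1)) (s : Finset V), μ a ⊆ s ↔ ∀ b, φ ⟨a, b⟩ ∈ s := by
    intro a s
    constructor
    · intro h b
      exact h (ε a b).2
    · intro h v hv
      have := h ((ε a).symm ⟨v, hv⟩)
      have h2 : φ ⟨a, (ε a).symm ⟨v, hv⟩⟩ = v := by
        show (ε a ((ε a).symm ⟨v, hv⟩)).1 = v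
        rw [Equiv.apply_symm_apply]
      rw [h2] at this
      exact this
  refine ⟨e.symm, fun s => ?_⟩
  have h1 : s ∈ Δ.faces ↔ ∀ a, ¬ μ a ⊆ s := by
    constructor
    · intro hs a ha
      exact hμ2 a (Δ.down s hs _ ha)
    · intro h
      by_contra hs
      obtain ⟨τ, hτs, hτ⟩ := exists_missing Δ s hs
      obtain ⟨a, rfl⟩ := hμ3 τ hτ
      exact h a hτs
  rw [h1]
  unfold K
  simp only [mem_filter, mem_univ, true_and]
  refine forall_congr' fun a => ?_
  rw [hsub]
  push Not
  refine exists_congr fun b => not_congr ?_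
  rw [mem_map_equiv, Equiv.symm_symm]
  rfl

end Pool.Agent.T9h80.GMin
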